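import Pool.Agent.Helper583.TCMain

/-!
Baire space has no degree of topological categoricity.
-/

namespace Pool.Agent.Results.MP_7511ee_lc.NoDegree

open Pool.Agent.Helper583.TC

/-- Baire space is `a`-categorical for some `a`, and there is no least Turing degree for which it is
categorical. -/
theorem result : (∃ a : ℕ → ℕ, Cat a) ∧
    ¬ ∃ a : ℕ → ℕ, Cat a ∧ ∀ b : ℕ → ℕ, Cat b → Red a b :=
  ⟨exists_cat, no_degree⟩

end Pool.Agent.Results.MP_7511ee_lc.NoDegree
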